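import Mathlib

set_option autoImplicit false

namespace Pool.Agent.Results.MP_378045_ag.Disproof

open MvPolynomial
open scoped ComplexOrder

/-- The mixed determinant `η(A_1, …, A_m)` of `n × n` matrices over a commutative ring: the sum of
`∏ j, det (A_j[S_j])` over all `m`-tuples `(S_1, …, S_m)` of pairwise disjoint subsets of the index
set whose union is the whole index set. -/
noncomputable def eta {R : Type} [CommRing R] {n m : ℕ} (A : Fin m → Matrix (Fin n) (Fin n) R) :
    R :=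
  open Classical in
  ∑ S : Fin m → Finset (Fin n),
    if (∀ i j, i ≠ j → Disjoint (S i) (S j)) ∧ (∀ a, ∃ j, a ∈ S j) then
      ∏ j, ((A j).submatrix (fun a : {a // a ∈ S j} => (a : Fin n))
        (fun a : {a // a ∈ S j} => (a : Fin n))).det
    else 0

/-- The pencil `∑ k, z_k A_k` as a matrix of complex polynomials. -/
noncomputable def pencil {n l : ℕ} (A : Fin l → Matrix (Fin n) (Fin n) ℂ) :
    Matrix (Fin n) (Fin n) (MvPolynomial (Fin l) ℂ) :=
  fun a b => ∑ k, C (A k a b) * X k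

/-- A real polynomial is real stable if it is nonzero and has no zero with all coordinates in the
open upper half plane. -/
def RealStable {l : ℕ} (f : MvPolynomial (Fin l) ℝ) : Prop :=
  f ≠ 0 ∧ ∀ z : Fin l → ℂ, (∀ k, 0 < (z k).im) → aeval z f ≠ 0

/-- the partition of the index set given by a map into the set of labels -/
lemma eta_eq_sum_fun {R : Type} [CommRing R] {n m : ℕ} (A : Fin m → Matrix (Fin n) (Fin n) R) :
    eta A = ∑ c : Fin n → Fin m, ∏ j, ((A j).submatrix (fun a : {a // c a = j} => (a : Fin n))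
        (fun a : {a // c a = j} => (a : Fin n))).det := by
  classical
  unfold eta
  rw [← Finset.sum_filter]
  symm
  refine Finset.sum_bij (fun c _ => fun j => Finset.univ.filter (fun a => c a = j)) ?_ ?_ ?_ ?_
  · intro c _
    simp only [Finset.mem_filter, Finset.mem_univ, true_and]
    refine ⟨?_, fun a => ⟨c a, rfl⟩⟩
    intro i j hij
    rw [Finset.disjoint_left]
    intro a ha hb
    simp only [Finset.mem_filter, Finset.mem_univ, true_and] at ha hb
    exact hij (ha.symm.trans hb)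
  · intro c _ c' _ h
    funext a
    have := congrFun h (c a)
    have h2 : a ∈ Finset.univ.filter (fun b => c b = c a) := by simp
    rw [this] at h2
    simp only [Finset.mem_filter, Finset.mem_univ, true_and] at h2
    exact h2.symm
  · intro S hS
    simp only [Finset.mem_filter, Finset.mem_univ, true_and] at hS
    choose c hc using hS.2
    refine ⟨c, Finset.mem_univ _, ?_⟩
    funext j
    ext a
    simp only [Finset.mem_filter, Finset.mem_univ, true_and]
    constructor
    · rintro rfl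
      exact hc a
    · intro ha
      by_contra hne
      exact Finset.disjoint_left.1 (hS.1 _ _ hne) (hc a) ha
  · intro c _
    refine Finset.prod_congr rfl fun j _ => ?_
    let e : {a // c a = j} ≃ {a // a ∈ Finset.univ.filter (fun a => c a = j)} :=
      Equiv.subtypeEquivRight (fun a => by simp)
    rw [← Matrix.det_submatrix_equiv_self e]
    rfl

lemma eta_two {R : Type} [CommRing R] {m : ℕ} (A : Fin m → Matrix (Fin 2) (Fin 2) R) :
    eta A = ∑ i, ∑ j, if i = j then (A i).det else A i 0 0 * A j 1 1 := by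
  rw [eta_eq_sum_fun, ← Finset.sum_product']
  refine Fintype.sum_equiv (finTwoArrowEquiv (Fin m)) _ _ ?_
  intro c
  change _ = if c 0 = c 1 then (A (c 0)).det else A (c 0) 0 0 * A (c 1) 1 1
  by_cases h : c 0 = c 1
  · rw [if_pos h, Finset.prod_eq_single (c 0)]
    · have hc : ∀ a : Fin 2, c a = c 0 := by
        intro a
        fin_cases a
        · rfl
        · exact h.symm
      let e : Fin 2 ≃ {a // c a = c 0} :=
        { toFun := fun a => ⟨a, hc a⟩
          invFun := fun a => a.1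
          left_inv := fun a => rfl
          right_inv := fun a => rfl }
      rw [← Matrix.det_submatrix_equiv_self e]
      rfl
    · intro k _ hk
      have : IsEmpty {a // c a = k} := by
        refine ⟨?_⟩
        rintro ⟨a, ha⟩
        fin_cases a
        · exact hk ha.symm
        · exact hk (ha.symm.trans h.symm)
      exact Matrix.det_isEmpty
    · intro hn
      exact absurd (Finset.mem_univ _) hn
  · rw [if_neg h, Finset.prod_eq_mul (c 0) (c 1) h]
    · congr 1
      · have hc : ∀ a : Fin 2, c a = c 0 → a = 0 := by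
          intro a ha
          fin_cases a
          · rfl
          · exact absurd ha.symm h
        let _ : Unique {a // c a = c 0} :=
          { default := ⟨0, rfl⟩
            uniq := fun a => Subtype.ext (hc a.1 a.2) }
        rw [Matrix.det_unique]
        rfl
      · have hc : ∀ a : Fin 2, c a = c 1 → a = 1 := by
          intro a ha
          fin_cases a
          · exact absurd ha h
          · rfl
        let _ : Unique {a // c a = c 1} :=
          { default := ⟨1, rfl⟩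
            uniq := fun a => Subtype.ext (hc a.1 a.2) }
        rw [Matrix.det_unique]
        rfl
    · intro k _ hk
      have : IsEmpty {a // c a = k} := by
        refine ⟨?_⟩
        rintro ⟨a, ha⟩
        fin_cases a
        · exact hk.1 ha.symm
        · exact hk.2 ha.symm
      exact Matrix.det_isEmpty
    · intro hn
      exact absurd (Finset.mem_univ _) hn
    · intro hn
      exact absurd (Finset.mem_univ _) hn

/-- the weights: adjacent indices of the 7-cycle have weight three, all others weight two -/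
def q (k l : Fin 7) : ℕ := if k = l then 0 else if k = l + 1 ∨ l = k + 1 then 3 else 2

/-- for every three-element set `{t1, t2, t3}` some `3 × 3` minor of `q` with these rows and three
further columns is nonzero -/
lemma cross : ∀ t1 t2 t3 : Fin 7, t1 ≠ t2 → t1 ≠ t3 → t2 ≠ t3 →
    ∃ s1 s2 s3 : Fin 7, (s1 ≠ t1 ∧ s1 ≠ t2 ∧ s1 ≠ t3) ∧ (s2 ≠ t1 ∧ s2 ≠ t2 ∧ s2 ≠ t3) ∧
      (s3 ≠ t1 ∧ s3 ≠ t2 ∧ s3 ≠ t3) ∧
      q t1 s1 * (q t2 s2 * q t3 s3) + q t1 s2 * (q t2 s3 * q t3 s1)
          + q t1 s3 * (q t2 s1 * q t3 s2)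
        ≠ q t1 s1 * (q t2 s3 * q t3 s2) + q t1 s2 * (q t2 s1 * q t3 s3)
          + q t1 s3 * (q t2 s2 * q t3 s1) := by
  decide

/-- the mixed determinant of `2 × 2` matrices in closed form -/
lemma eta_two' {R : Type} [CommRing R] {m : ℕ} (A : Fin m → Matrix (Fin 2) (Fin 2) R) :
    eta A = (∑ i, A i 0 0) * (∑ i, A i 1 1) - ∑ i, A i 0 1 * A i 1 0 := by
  rw [eta_two, Finset.sum_mul_sum, ← Finset.sum_sub_distrib]
  refine Finset.sum_congr rfl fun i _ => ?_
  have h : ∀ j, (if i = j then (A i).det else A i 0 0 * A j 1 1)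
      = A i 0 0 * A j 1 1 - (if i = j then A i 0 1 * A i 1 0 else 0) := by
    intro j
    split_ifs with hij
    · subst hij
      rw [Matrix.det_fin_two]
    · ring
  simp only [h, Finset.sum_sub_distrib, Finset.sum_ite_eq, Finset.mem_univ, if_true]

/-- either five indices carry the same label, or some three-element set of indices shares no label
with its complement -/
lemma partition_lemma {m : ℕ} (g : Fin 7 → Fin m) :
    (∃ K : Finset (Fin 7), 5 ≤ K.card ∧ ∃ j, ∀ k ∈ K, g k = j) ∨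
    (∃ T : Finset (Fin 7), T.card = 3 ∧ ∀ t ∈ T, ∀ s, s ∉ T → g t ≠ g s) := by
  classical
  let P : Finset (Fin 7) → Prop := fun U => 3 ≤ U.card ∧ ∀ t ∈ U, ∀ s, s ∉ U → g t ≠ g s
  have hne : (Finset.univ.filter P).Nonempty :=
    ⟨Finset.univ, by simp [P]⟩
  obtain ⟨U, hU, hmin⟩ := Finset.exists_min_image (Finset.univ.filter P) Finset.card hne
  simp only [Finset.mem_filter, Finset.mem_univ, true_and] at hU hmin
  obtain ⟨hU3, hUs⟩ := hU
  by_cases h3 : U.card = 3
  · exact Or.inr ⟨U, h3, hUs⟩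
  by_cases h4 : U.card = 4
  · refine Or.inr ⟨Uᶜ, ?_, ?_⟩
    · rw [Finset.card_compl, h4]
      rfl
    · intro t ht s hs
      rw [Finset.mem_compl] at ht
      rw [Finset.mem_compl, not_not] at hs
      exact fun h => hUs s hs t ht h.symm
  · have h5 : 5 ≤ U.card := by omega
    left
    obtain ⟨k, hk⟩ : U.Nonempty := by
      rw [← Finset.card_pos]
      omega
    let K := Finset.univ.filter (fun l => g l = g k)
    have hKU : K ⊆ U := by
      intro l hl
      simp only [K, Finset.mem_filter, Finset.mem_univ, true_and] at hl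
      by_contra hn
      exact hUs k hk l hn hl.symm
    have hPK : ∀ t ∈ K, ∀ s, s ∉ K → g t ≠ g s := by
      intro t ht s hs h
      simp only [K, Finset.mem_filter, Finset.mem_univ, true_and] at ht hs
      exact hs (h.symm.trans ht)
    by_cases hK : U = K
    · refine ⟨K, by rw [← hK]; exact h5, g k, ?_⟩
      intro l hl
      simpa [K] using hl
    · exfalso
      have hdiff : ∀ t ∈ U \ K, ∀ s, s ∉ U \ K → g t ≠ g s := by
        intro t ht s hs h
        rw [Finset.mem_sdiff] at ht hs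
        by_cases hsU : s ∈ U
        · have hsK : s ∈ K := by
            by_contra hn
            exact hs ⟨hsU, hn⟩
          exact hPK s hsK t ht.2 h.symm
        · exact hUs t ht.1 s hsU h
      have hkK : k ∈ K := by simp [K]
      have hlt : (U \ K).card < U.card := by
        refine Finset.card_lt_card ?_
        refine ⟨Finset.sdiff_subset, fun hsub => ?_⟩
        have := hsub hk
        rw [Finset.mem_sdiff] at this
        exact this.2 hkK
      have hlt2 : K.card < U.card :=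
        Finset.card_lt_card (lt_of_le_of_ne hKU (fun h => hK h.symm))
      have c1 : ¬ 3 ≤ (U \ K).card := fun h => absurd (hmin _ ⟨h, hdiff⟩) (not_le.2 hlt)
      have c2 : ¬ 3 ≤ K.card := fun h => absurd (hmin _ ⟨h, hPK⟩) (not_le.2 hlt2)
      have := Finset.card_sdiff_add_card_eq_card hKU
      omega

/-- the real quadratic form `(∑ c)² - ½ ∑ (c_k - c_{k+1})²` -/
noncomputable def F (c : Fin 7 → ℝ) : ℝ :=
  (∑ k, c k) ^ 2 - 1 / 2 * ∑ k, (c k - c (k + 1)) ^ 2

/-- expanded form of `F` -/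
lemma F_expand (c : Fin 7 → ℝ) : F c =
    (c 0 + c 1 + c 2 + c 3 + c 4 + c 5 + c 6) ^ 2 - 1 / 2 * ((c 0 - c 1) ^ 2 + (c 1 - c 2) ^ 2
      + (c 2 - c 3) ^ 2 + (c 3 - c 4) ^ 2 + (c 4 - c 5) ^ 2 + (c 5 - c 6) ^ 2
      + (c 6 - c 0) ^ 2) := by
  unfold F
  rw [Fin.sum_univ_seven, Fin.sum_univ_seven]
  rfl

lemma F_single (k : Fin 7) : F (Pi.single k 1) = 0 := by
  rw [F_expand]
  fin_cases k <;> simp <;> norm_num

lemma F_pair (k l : Fin 7) (h : k ≠ l) : F (Pi.single k 1 + Pi.single l 1) = q k l := by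
  rw [F_expand]
  fin_cases k <;> fin_cases l <;> first | exact absurd rfl h | skip
  all_goals simp [q]
  all_goals norm_num

/-- a nonzero vector supported on five indices is orthogonal to four given vectors -/
lemma exists_orth (K : Finset (Fin 7)) (hK : 5 ≤ K.card) (a b x y : Fin 7 → ℝ) :
    ∃ w : Fin 7 → ℝ, w ≠ 0 ∧ (∀ k, k ∉ K → w k = 0) ∧ ∑ k, a k * w k = 0 ∧ ∑ k, b k * w k = 0 ∧
      ∑ k, x k * w k = 0 ∧ ∑ k, y k * w k = 0 := by
  classical
  let φ : ({k // k ∈ K} → ℝ) →ₗ[ℝ] (Fin 4 → ℝ) :=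
    { toFun := fun w => ![∑ k, a k.1 * w k, ∑ k, b k.1 * w k, ∑ k, x k.1 * w k, ∑ k, y k.1 * w k]
      map_add' := by
        intro u v
        ext i
        fin_cases i <;> simp [mul_add, Finset.sum_add_distrib]
      map_smul' := by
        intro t v
        ext i
        fin_cases i <;> simp [Finset.mul_sum, mul_left_comm] }
  have hker : LinearMap.ker φ ≠ ⊥ := by
    apply LinearMap.ker_ne_bot_of_finrank_lt
    simp only [Module.finrank_fintype_fun_eq_card, Fintype.card_coe, Fintype.card_fin]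
    omega
  obtain ⟨v, hv, hv0⟩ := Submodule.exists_mem_ne_zero_of_ne_bot hker
  have hφ : φ v = 0 := hv
  let w : Fin 7 → ℝ := fun k => if h : k ∈ K then v ⟨k, h⟩ else 0
  have hsum : ∀ c : Fin 7 → ℝ, ∑ k, c k * w k = ∑ k : {k // k ∈ K}, c k.1 * v k := by
    intro c
    rw [← Finset.sum_subset (Finset.subset_univ K)]
    · rw [← Finset.sum_coe_sort K]
      refine Finset.sum_congr rfl fun k _ => ?_
      simp [w]
    · intro k _ hk
      simp [w, hk]
  refine ⟨w, ?_, ?_, ?_, ?_, ?_, ?_⟩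
  · intro h
    apply hv0
    ext k
    have := congrFun h k.1
    simpa [w] using this
  · intro k hk
    simp [w, hk]
  · rw [hsum]
    exact congrFun hφ 0
  · rw [hsum]
    exact congrFun hφ 1
  · rw [hsum]
    exact congrFun hφ 2
  · rw [hsum]
    exact congrFun hφ 3

/-- seven nonnegative reals and a square adding up to zero -/
lemma all_zero (S n0 n1 n2 n3 n4 n5 n6 : ℝ) (hS : 0 ≤ S) (h0 : 0 ≤ n0) (h1 : 0 ≤ n1) (h2 : 0 ≤ n2)
    (h3 : 0 ≤ n3) (h4 : 0 ≤ n4) (h5 : 0 ≤ n5) (h6 : 0 ≤ n6)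
    (h : S + 1 / 2 * (n0 + n1 + n2 + n3 + n4 + n5 + n6) = 0) :
    S = 0 ∧ n0 = 0 ∧ n1 = 0 ∧ n2 = 0 ∧ n3 = 0 ∧ n4 = 0 ∧ n5 = 0 := by
  refine ⟨?_, ?_, ?_, ?_, ?_, ?_, ?_⟩ <;> linarith

/-- the form `F` is nondegenerate: no nonzero vector lies in its radical -/
lemma F_nondeg (w : Fin 7 → ℝ) (hw : ∀ u, F (u + w) = F u) : w = 0 := by
  have h1 := hw (fun _ => -(w 0 + w 1 + w 2 + w 3 + w 4 + w 5 + w 6) / 7)
  rw [F_expand, F_expand] at h1
  simp only [Pi.add_apply] at h1
  have key : (w 0 + w 1 + w 2 + w 3 + w 4 + w 5 + w 6) ^ 2 + 1 / 2 * ((w 0 - w 1) ^ 2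
      + (w 1 - w 2) ^ 2 + (w 2 - w 3) ^ 2 + (w 3 - w 4) ^ 2 + (w 4 - w 5) ^ 2 + (w 5 - w 6) ^ 2
      + (w 6 - w 0) ^ 2) = 0 := by
    linear_combination (-1) * h1
  obtain ⟨hS, e0, e1, e2, e3, e4, e5⟩ := all_zero _ _ _ _ _ _ _ _ (sq_nonneg _) (sq_nonneg _)
    (sq_nonneg _) (sq_nonneg _) (sq_nonneg _) (sq_nonneg _) (sq_nonneg _) (sq_nonneg _) key
  have hS' : w 0 + w 1 + w 2 + w 3 + w 4 + w 5 + w 6 = 0 := pow_eq_zero_iff (by norm_num) |>.1 hS
  have d0 : w 0 - w 1 = 0 := pow_eq_zero_iff (by norm_num) |>.1 e0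
  have d1 : w 1 - w 2 = 0 := pow_eq_zero_iff (by norm_num) |>.1 e1
  have d2 : w 2 - w 3 = 0 := pow_eq_zero_iff (by norm_num) |>.1 e2
  have d3 : w 3 - w 4 = 0 := pow_eq_zero_iff (by norm_num) |>.1 e3
  have d4 : w 4 - w 5 = 0 := pow_eq_zero_iff (by norm_num) |>.1 e4
  have d5 : w 5 - w 6 = 0 := pow_eq_zero_iff (by norm_num) |>.1 e5
  have z0 : w 0 = 0 := by linarith
  have z1 : w 1 = 0 := by linarith
  have z2 : w 2 = 0 := by linarith
  have z3 : w 3 = 0 := by linarith
  have z4 : w 4 = 0 := by linarith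
  have z5 : w 5 = 0 := by linarith
  have z6 : w 6 = 0 := by linarith
  ext k
  fin_cases k
  exacts [z0, z1, z2, z3, z4, z5, z6]

/-- The numerical core: the form `F` is not of the shape forced on mixed determinants. -/
lemma core {m : ℕ} (al be xx yy : Fin m → Fin 7 → ℝ)
    (hal : ∀ j k, 0 ≤ al j k) (hbe : ∀ j k, 0 ≤ be j k)
    (hpsd : ∀ j k, xx j k ^ 2 + yy j k ^ 2 ≤ al j k * be j k)
    (hF : ∀ c : Fin 7 → ℝ, F c = (∑ j, ∑ k, al j k * c k) * (∑ j, ∑ k, be j k * c k)
      - ∑ j, ((∑ k, xx j k * c k) ^ 2 + (∑ k, yy j k * c k) ^ 2)) : False := by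
  classical
  -- the case without pencils
  rcases Nat.eq_zero_or_pos m with hm | hm
  · subst hm
    have := hF (Pi.single 0 1 + Pi.single 1 1)
    rw [F_pair 0 1 (by decide)] at this
    simp [q] at this
  have : NeZero m := ⟨hm.ne'⟩
  -- the linear forms `a` and `b`
  obtain ⟨a, ha⟩ : ∃ a : Fin 7 → ℝ, ∀ k, a k = ∑ j, al j k := ⟨_, fun _ => rfl⟩
  obtain ⟨b, hb⟩ : ∃ b : Fin 7 → ℝ, ∀ k, b k = ∑ j, be j k := ⟨_, fun _ => rfl⟩
  have hF' : ∀ c : Fin 7 → ℝ, F c = (∑ k, a k * c k) * (∑ k, b k * c k)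
      - ∑ j, ((∑ k, xx j k * c k) ^ 2 + (∑ k, yy j k * c k) ^ 2) := by
    intro c
    rw [hF c, Finset.sum_comm, Finset.sum_comm (f := fun j k => be j k * c k)]
    simp only [ha, hb, Finset.sum_mul]
  have hsingle : ∀ (u : Fin 7 → ℝ) (k : Fin 7), ∑ l, u l * (Pi.single k 1 : Fin 7 → ℝ) l = u k := by
    intro u k
    simp [Pi.single_apply]
  have hpair : ∀ (u : Fin 7 → ℝ) (k l : Fin 7),
      ∑ i, u i * (Pi.single k 1 + Pi.single l 1 : Fin 7 → ℝ) i = u k + u l := by
    intro u k l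
    simp only [Pi.add_apply, mul_add, Finset.sum_add_distrib, hsingle]
  -- diagonal coefficients
  have hdiag : ∀ k, a k * b k - ∑ j, (xx j k ^ 2 + yy j k ^ 2) = 0 := by
    intro k
    have := hF' (Pi.single k 1)
    rw [F_single] at this
    simp only [hsingle] at this
    exact this.symm
  -- off-diagonal coefficients
  have hoff : ∀ k l, k ≠ l →
      (q k l : ℝ) = a k * b l + a l * b k - 2 * ∑ j, (xx j k * xx j l + yy j k * yy j l) := by
    intro k l hkl
    have h1 := hF' (Pi.single k 1 + Pi.single l 1)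
    rw [F_pair k l hkl] at h1
    simp only [hpair] at h1
    have h2 : ∑ j, ((xx j k + xx j l) ^ 2 + (yy j k + yy j l) ^ 2)
        = ∑ j, (xx j k ^ 2 + yy j k ^ 2) + ∑ j, (xx j l ^ 2 + yy j l ^ 2)
          + 2 * ∑ j, (xx j k * xx j l + yy j k * yy j l) := by
      rw [Finset.mul_sum, ← Finset.sum_add_distrib, ← Finset.sum_add_distrib]
      refine Finset.sum_congr rfl fun j _ => ?_
      ring
    rw [h2] at h1
    linear_combination h1 + hdiag k + hdiag l
  -- every index carries at most one label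
  have hterm : ∀ k i j, al i k * be j k - (if i = j then xx i k ^ 2 + yy i k ^ 2 else 0) = 0 := by
    intro k
    have hnn : ∀ i j, 0 ≤ al i k * be j k - (if i = j then xx i k ^ 2 + yy i k ^ 2 else 0) := by
      intro i j
      split_ifs with h
      · subst h
        exact sub_nonneg.2 (hpsd i k)
      · rw [sub_zero]
        exact mul_nonneg (hal i k) (hbe j k)
    have hsum : ∑ i, ∑ j, (al i k * be j k - (if i = j then xx i k ^ 2 + yy i k ^ 2 else 0)) = 0 := by
      simp only [Finset.sum_sub_distrib, Finset.sum_ite_eq, Finset.mem_univ, if_true]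
      rw [← hdiag k, ha, hb, Finset.sum_mul_sum]
    intro i j
    have h1 := (Finset.sum_eq_zero_iff_of_nonneg
      (fun i _ => Finset.sum_nonneg fun j _ => hnn i j)).1 hsum i (Finset.mem_univ _)
    exact (Finset.sum_eq_zero_iff_of_nonneg (fun j _ => hnn i j)).1 h1 j (Finset.mem_univ _)
  have hlabel : ∀ k, ∃ g : Fin m, ∀ j, j ≠ g → xx j k = 0 ∧ yy j k = 0 := by
    intro k
    have hsq : ∀ j, xx j k ^ 2 + yy j k ^ 2 = 0 → xx j k = 0 ∧ yy j k = 0 := by
      intro j hj
      constructor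
      · have : xx j k ^ 2 = 0 := by nlinarith [sq_nonneg (xx j k), sq_nonneg (yy j k)]
        exact pow_eq_zero_iff (by norm_num) |>.1 this
      · have : yy j k ^ 2 = 0 := by nlinarith [sq_nonneg (xx j k), sq_nonneg (yy j k)]
        exact pow_eq_zero_iff (by norm_num) |>.1 this
    by_cases h : ∃ g, xx g k ^ 2 + yy g k ^ 2 ≠ 0
    · obtain ⟨g, hg⟩ := h
      refine ⟨g, fun j hj => hsq j ?_⟩
      by_contra hne
      have e1 := hterm k g g
      rw [if_pos rfl, sub_eq_zero] at e1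
      have e2 := hterm k j j
      rw [if_pos rfl, sub_eq_zero] at e2
      have e3 := hterm k j g
      rw [if_neg hj, sub_zero] at e3
      rcases mul_eq_zero.1 e3 with h0 | h0
      · exact hne (by rw [← e2, h0, zero_mul])
      · exact hg (by rw [← e1, h0, mul_zero])
    · push Not at h
      exact ⟨0, fun j _ => hsq j (h j)⟩
  choose g hg using hlabel
  rcases partition_lemma g with ⟨K, hK, j, hj⟩ | ⟨T, hT, hsep⟩
  · -- five indices with a common label
    obtain ⟨w, hw0, hwK, hwa, hwb, hwx, hwy⟩ := exists_orth K hK a b (xx j) (yy j)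
    have hx : ∀ i, ∑ k, xx i k * w k = 0 := by
      intro i
      by_cases hij : i = j
      · rw [hij]
        exact hwx
      · refine Finset.sum_eq_zero fun k _ => ?_
        by_cases hk : k ∈ K
        · rw [(hg k i (by rw [hj k hk]; exact hij)).1, zero_mul]
        · rw [hwK k hk, mul_zero]
    have hy : ∀ i, ∑ k, yy i k * w k = 0 := by
      intro i
      by_cases hij : i = j
      · rw [hij]
        exact hwy
      · refine Finset.sum_eq_zero fun k _ => ?_
        by_cases hk : k ∈ K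
        · rw [(hg k i (by rw [hj k hk]; exact hij)).2, zero_mul]
        · rw [hwK k hk, mul_zero]
    apply hw0
    apply F_nondeg
    intro u
    rw [hF' (u + w), hF' u]
    simp only [Pi.add_apply, mul_add, Finset.sum_add_distrib, hx, hy, hwa, hwb, add_zero]
  · -- a three-element set of indices sharing no label with its complement
    obtain ⟨t1, t2, t3, h12, h13, h23, rfl⟩ := Finset.card_eq_three.1 hT
    obtain ⟨s1, s2, s3, h1, h2, h3, hdet⟩ := cross t1 t2 t3 h12 h13 h23
    have hq : ∀ t s, t = t1 ∨ t = t2 ∨ t = t3 → (s ≠ t1 ∧ s ≠ t2 ∧ s ≠ t3) →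
        (q t s : ℝ) = a t * b s + a s * b t := by
      intro t s ht hs
      have hne : t ≠ s := by
        rintro rfl
        rcases ht with h | h | h
        · exact hs.1 h
        · exact hs.2.1 h
        · exact hs.2.2 h
      have hgts : g t ≠ g s := by
        refine hsep t ?_ s ?_
        · simpa using ht
        · simpa using hs
      rw [hoff t s hne]
      have : ∑ j, (xx j t * xx j s + yy j t * yy j s) = 0 := by
        refine Finset.sum_eq_zero fun j _ => ?_
        by_cases hjt : j = g t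
        · have hjs : j ≠ g s := by
            rw [hjt]
            exact hgts
          rw [(hg s j hjs).1, (hg s j hjs).2]
          ring
        · rw [(hg t j hjt).1, (hg t j hjt).2]
          ring
      rw [this]
      ring
    have c1 : t1 = t1 ∨ t1 = t2 ∨ t1 = t3 := Or.inl rfl
    have c2 : t2 = t1 ∨ t2 = t2 ∨ t2 = t3 := Or.inr (Or.inl rfl)
    have c3 : t3 = t1 ∨ t3 = t2 ∨ t3 = t3 := Or.inr (Or.inr rfl)
    apply hdet
    have : ((q t1 s1 * (q t2 s2 * q t3 s3) + q t1 s2 * (q t2 s3 * q t3 s1)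
          + q t1 s3 * (q t2 s1 * q t3 s2) : ℕ) : ℝ)
        = ((q t1 s1 * (q t2 s3 * q t3 s2) + q t1 s2 * (q t2 s1 * q t3 s3)
          + q t1 s3 * (q t2 s2 * q t3 s1) : ℕ) : ℝ) := by
      push_cast
      rw [hq t1 s1 c1 h1, hq t1 s2 c1 h2, hq t1 s3 c1 h3, hq t2 s1 c2 h1, hq t2 s2 c2 h2,
        hq t2 s3 c2 h3, hq t3 s1 c3 h1, hq t3 s2 c3 h2, hq t3 s3 c3 h3]
      ring
    exact_mod_cast this

/-- the entries of a positive semidefinite `2 × 2` matrix -/
lemma psd_data (A : Matrix (Fin 2) (Fin 2) ℂ) (hA : A.PosSemidef) :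
    ∃ al be x y : ℝ, 0 ≤ al ∧ 0 ≤ be ∧ x ^ 2 + y ^ 2 ≤ al * be ∧ A 0 0 = (al : ℂ) ∧
      A 1 1 = (be : ℂ) ∧ A 0 1 = (x : ℂ) + (y : ℂ) * Complex.I ∧
      A 1 0 = (x : ℂ) - (y : ℂ) * Complex.I := by
  have h00 := hA.diag_nonneg (i := 0)
  have h11 := hA.diag_nonneg (i := 1)
  have hdet := hA.det_nonneg
  have hherm := hA.isHermitian
  have h10 : A 1 0 = star (A 0 1) := (hherm.apply 1 0).symm
  rw [Complex.nonneg_iff] at h00 h11
  have e00 : A 0 0 = ((A 0 0).re : ℂ) := Complex.ext (by simp) (by simp [← h00.2])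
  have e11 : A 1 1 = ((A 1 1).re : ℂ) := Complex.ext (by simp) (by simp [← h11.2])
  refine ⟨(A 0 0).re, (A 1 1).re, (A 0 1).re, (A 0 1).im, h00.1, h11.1, ?_, e00, e11,
    (Complex.re_add_im _).symm, ?_⟩
  · rw [Matrix.det_fin_two, h10, e00, e11, Complex.nonneg_iff] at hdet
    have := hdet.1
    simp at this
    nlinarith
  · rw [h10]
    apply Complex.ext <;> simp

/-- the polynomial `(∑ z)² - ½ ∑ (z_k - z_{k+1})²`, indices modulo seven -/
noncomputable def fPoly : MvPolynomial (Fin 7) ℝ :=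
  (∑ k, X k) ^ 2 - C (1 / 2) * ∑ k, (X k - X (k + 1)) ^ 2

lemma fPoly_homogeneous : fPoly.IsHomogeneous 2 := by
  unfold fPoly
  have h1 : (∑ k, X k : MvPolynomial (Fin 7) ℝ).IsHomogeneous 1 :=
    IsHomogeneous.sum _ _ _ fun k _ => isHomogeneous_X ℝ k
  have h2 : (∑ k, (X k - X (k + 1)) ^ 2 : MvPolynomial (Fin 7) ℝ).IsHomogeneous 2 := by
    refine IsHomogeneous.sum _ _ _ fun k _ => ?_
    exact ((isHomogeneous_X ℝ k).sub (isHomogeneous_X ℝ (k + 1))).pow 2
  have h3 := (isHomogeneous_C (Fin 7) (1 / 2 : ℝ)).mul h2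
  have h4 := h1.pow 2
  simp only [one_mul, zero_add] at h3 h4
  exact h4.sub h3

lemma fPoly_eval (c : Fin 7 → ℝ) : eval c fPoly = F c := by
  simp [fPoly, F]

lemma fPoly_ne : fPoly ≠ 0 := by
  intro h
  have := fPoly_eval (Pi.single 0 1 + Pi.single 1 1)
  rw [F_pair 0 1 (by decide), h] at this
  simp [q] at this

/-- the value of `F` at a vector with positive entries is positive -/
lemma F_pos (y : Fin 7 → ℝ) (hy : ∀ k, 0 < y k) : 0 < F y := by
  have e : F y = 2 * (y 0 * y 1 + y 0 * y 2 + y 0 * y 3 + y 0 * y 4 + y 0 * y 5 + y 0 * y 6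
      + y 1 * y 2 + y 1 * y 3 + y 1 * y 4 + y 1 * y 5 + y 1 * y 6 + y 2 * y 3 + y 2 * y 4
      + y 2 * y 5 + y 2 * y 6 + y 3 * y 4 + y 3 * y 5 + y 3 * y 6 + y 4 * y 5 + y 4 * y 6
      + y 5 * y 6) + (y 0 * y 1 + y 1 * y 2 + y 2 * y 3 + y 3 * y 4 + y 4 * y 5 + y 5 * y 6
      + y 6 * y 0) := by
    rw [F_expand]
    ring
  rw [e]
  have h0 := hy 0
  have h1 := hy 1
  have h2 := hy 2
  have h3 := hy 3
  have h4 := hy 4
  have h5 := hy 5
  have h6 := hy 6
  positivity

/-- the polarization of `F` -/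
noncomputable def B (x y : Fin 7 → ℝ) : ℝ :=
  (∑ k, x k) * (∑ k, y k) - 1 / 2 * ∑ k, (x k - x (k + 1)) * (y k - y (k + 1))

lemma F_nonpos (x y : Fin 7 → ℝ) (hy : ∀ k, 0 < y k) (hB : B x y = 0) : F x ≤ 0 := by
  have hS : 0 < ∑ k, y k := Finset.sum_pos (fun k _ => hy k) Finset.univ_nonempty
  have hyF := F_pos y hy
  have e1 : (∑ k, y k) ^ 2 * F x + (∑ k, x k) ^ 2 * F y
      - 2 * ((∑ k, x k) * (∑ k, y k)) * B x y
      = - (1 / 2 * ∑ k, ((∑ i, y i) * (x k - x (k + 1)) - (∑ i, x i) * (y k - y (k + 1))) ^ 2) := by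
    have e2 : ∑ k, ((∑ i, y i) * (x k - x (k + 1)) - (∑ i, x i) * (y k - y (k + 1))) ^ 2
        = (∑ i, y i) ^ 2 * ∑ k, (x k - x (k + 1)) ^ 2
          + (∑ i, x i) ^ 2 * ∑ k, (y k - y (k + 1)) ^ 2
          - 2 * ((∑ i, x i) * (∑ i, y i)) * ∑ k, (x k - x (k + 1)) * (y k - y (k + 1)) := by
      rw [Finset.mul_sum, Finset.mul_sum, Finset.mul_sum, ← Finset.sum_add_distrib,
        ← Finset.sum_sub_distrib]
      refine Finset.sum_congr rfl fun k _ => ?_
      ring
    rw [e2]
    unfold F B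
    ring
  have e3 : 0 ≤ ∑ k, ((∑ i, y i) * (x k - x (k + 1)) - (∑ i, x i) * (y k - y (k + 1))) ^ 2 :=
    Finset.sum_nonneg fun k _ => sq_nonneg _
  rw [hB, mul_zero, sub_zero] at e1
  have e4 : (∑ k, y k) ^ 2 * F x ≤ 0 := by
    have : 0 ≤ (∑ k, x k) ^ 2 * F y := mul_nonneg (sq_nonneg _) hyF.le
    linarith
  by_contra hx
  have := mul_pos (pow_pos hS 2) (not_le.1 hx)
  linarith

lemma fPoly_stable : RealStable fPoly := by
  refine ⟨fPoly_ne, ?_⟩
  intro z hz h0
  have e : aeval z fPoly = (∑ k, z k) ^ 2 - 1 / 2 * ∑ k, (z k - z (k + 1)) ^ 2 := by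
    simp [fPoly]
  rw [e] at h0
  obtain ⟨x, hx⟩ : ∃ x : Fin 7 → ℝ, ∀ k, x k = (z k).re := ⟨_, fun _ => rfl⟩
  obtain ⟨y, hy⟩ : ∃ y : Fin 7 → ℝ, ∀ k, y k = (z k).im := ⟨_, fun _ => rfl⟩
  have hpos : ∀ k, 0 < y k := fun k => by rw [hy]; exact hz k
  have hzk : ∀ k, z k = (x k : ℂ) + (y k : ℂ) * Complex.I := fun k => by
    rw [hx, hy]
    exact (Complex.re_add_im _).symm
  have e2 : (∑ k, z k) ^ 2 - 1 / 2 * ∑ k, (z k - z (k + 1)) ^ 2
      = ((F x - F y : ℝ) : ℂ) + ((2 * B x y : ℝ) : ℂ) * Complex.I := by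
    have s1 : ∑ k, z k = ((∑ k, x k : ℝ) : ℂ) + ((∑ k, y k : ℝ) : ℂ) * Complex.I := by
      push_cast
      rw [Finset.sum_mul, ← Finset.sum_add_distrib]
      exact Finset.sum_congr rfl fun k _ => hzk k
    have s2 : ∑ k, (z k - z (k + 1)) ^ 2
        = ((∑ k, (x k - x (k + 1)) ^ 2 - ∑ k, (y k - y (k + 1)) ^ 2 : ℝ) : ℂ)
          + ((2 * ∑ k, (x k - x (k + 1)) * (y k - y (k + 1)) : ℝ) : ℂ) * Complex.I := by
      push_cast
      rw [Finset.mul_sum, Finset.sum_mul, ← Finset.sum_sub_distrib, ← Finset.sum_add_distrib]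
      refine Finset.sum_congr rfl fun k _ => ?_
      rw [hzk k, hzk (k + 1)]
      linear_combination ((y k : ℂ) - (y (k + 1) : ℂ)) ^ 2 * Complex.I_sq
    rw [s1, s2]
    unfold F B
    push_cast
    linear_combination (∑ k, (y k : ℂ)) ^ 2 * Complex.I_sq
  rw [e2] at h0
  have hre := congrArg Complex.re h0
  have him := congrArg Complex.im h0
  simp at hre him
  have hB : B x y = 0 := by linarith
  have h1 := F_nonpos x y hpos hB
  have h2 := F_pos y hpos
  linarith

/-- **Disproof.** There is a homogeneous real stable polynomial `f` of degree two in seven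
variables that is not a mixed determinant of `2 × 2` positive pencils without constant term. -/
theorem result :
    ∃ f : MvPolynomial (Fin 7) ℝ, f.IsHomogeneous 2 ∧ RealStable f ∧
      ∀ (m : ℕ) (A : Fin m → Fin 7 → Matrix (Fin 2) (Fin 2) ℂ),
        (∀ j k, (A j k).PosSemidef) →
        MvPolynomial.map (algebraMap ℝ ℂ) f ≠ eta (fun j => pencil (A j)) := by
  refine ⟨fPoly, fPoly_homogeneous, fPoly_stable, ?_⟩
  intro m A hA h
  choose al be xx yy h1 h2 h3 h4 h5 h6 h7 using fun j k => psd_data (A j k) (hA j k)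
  refine core al be xx yy h1 h2 h3 ?_
  intro c
  have e := congrArg (eval (fun k => (c k : ℂ))) h
  rw [eta_two'] at e
  simp only [pencil, map_sub, map_mul, map_sum, eval_C, eval_X, h4, h5, h6, h7] at e
  have e1 : eval (fun k => (c k : ℂ)) (MvPolynomial.map (algebraMap ℝ ℂ) fPoly) = ((F c : ℝ) : ℂ) := by
    simp [fPoly, F]
  rw [e1] at e
  have e2 : ∀ i, (∑ k, ((xx i k : ℂ) + (yy i k : ℂ) * Complex.I) * (c k : ℂ))
      * (∑ k, ((xx i k : ℂ) - (yy i k : ℂ) * Complex.I) * (c k : ℂ))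
      = (((∑ k, xx i k * c k) ^ 2 + (∑ k, yy i k * c k) ^ 2 : ℝ) : ℂ) := by
    intro i
    have a1 : (∑ k, ((xx i k : ℂ) + (yy i k : ℂ) * Complex.I) * (c k : ℂ))
        = (∑ k, (xx i k : ℂ) * (c k : ℂ)) + (∑ k, (yy i k : ℂ) * (c k : ℂ)) * Complex.I := by
      rw [Finset.sum_mul, ← Finset.sum_add_distrib]
      refine Finset.sum_congr rfl fun k _ => ?_
      ring
    have a2 : (∑ k, ((xx i k : ℂ) - (yy i k : ℂ) * Complex.I) * (c k : ℂ))
        = (∑ k, (xx i k : ℂ) * (c k : ℂ)) - (∑ k, (yy i k : ℂ) * (c k : ℂ)) * Complex.I := by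
      rw [Finset.sum_mul, ← Finset.sum_sub_distrib]
      refine Finset.sum_congr rfl fun k _ => ?_
      ring
    rw [a1, a2]
    push_cast
    linear_combination (-1) * (∑ k, (yy i k : ℂ) * (c k : ℂ)) ^ 2 * Complex.I_sq
  simp only [e2] at e
  exact_mod_cast e

end Pool.Agent.Results.MP_378045_ag.Disproof
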